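import Pool.Agent.Helper666.FinGen.Defs
import Pool.Agent.Helper666.FinGen.Final

/-!
# Neither the strongly base-orderable nor the base-orderable matroids are finitely generated as a
complete class
-/

namespace Pool.Agent.Results.MP_9f00ad_co.NotFinGen

open Pool.Agent.Helper666.FinGen

/-- There is no finite family of finite matroids `M₁, …, Mₖ` with `SBO = C(M₁, …, Mₖ)`, and none
with `BO = C(M₁, …, Mₖ)`. -/
theorem result : ¬ FinitelyGenerated SBO ∧ ¬ FinitelyGenerated BO :=
  not_finitelyGenerated

end Pool.Agent.Results.MP_9f00ad_co.NotFinGen
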