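import Mathlib
import Pool.Agent.Helper616.FG.Defs
import Pool.Agent.Helper616.FG.Proof

namespace Pool.Agent.Results.MP_9f00ad_co.NotFinitelyGenerated

open Set Pool.Agent.Helper616.FG

/-! Sanity checks: the class of all finite matroids is complete, and the class generated by a family
of finite matroids is complete and contains the family, so it is the smallest such class. -/

theorem allFinite_isComplete : IsComplete (fun _ M => M.E.Finite) where
  finite h := h
  iso := by
    rintro α β M N ⟨e, _⟩ hM
    have : Finite M.E := hM
    have : Finite N.E := Finite.of_equiv _ e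
    exact Set.toFinite _
  restrict h A hA := h.subset hA
  contract h A _ := h.subset sdiff_subset
  dual h := h
  directSum := by
    intro α β M N hM hN
    show (M.sum N).E.Finite
    rw [Matroid.sum_ground]
    exact (hM.image _).union (hN.image _)
  truncate := by
    intro α M T k hM _ hT
    show T.E.Finite
    rw [hT.1]; exact hM
  induce := by
    intro τ hτ G M₀ N A _ _
    exact Set.toFinite _

theorem generated_isComplete {κ : Type} {β : κ → Type} (F : ∀ i, Matroid (β i))
    (hF : ∀ i, (F i).E.Finite) : IsComplete (Generated F) where
  finite h := h _ allFinite_isComplete hF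
  iso hiso h C hC hCF := hC.iso hiso (h C hC hCF)
  restrict h A hA C hC hCF := hC.restrict (h C hC hCF) A hA
  contract h A hA C hC hCF := hC.contract (h C hC hCF) A hA
  dual h C hC hCF := hC.dual (h C hC hCF)
  directSum h h' C hC hCF := hC.directSum (h C hC hCF) (h' C hC hCF)
  truncate h hk hT C hC hCF := hC.truncate (h C hC hCF) hk hT
  induce h hN C hC hCF := hC.induce (h C hC hCF) hN

theorem generated_self {κ : Type} {β : κ → Type} (F : ∀ i, Matroid (β i)) (i : κ) :
    Generated F (β i) (F i) := fun _ _ hCF => hCF i

/-- Neither the class of strongly base-orderable matroids nor the class of base-orderable matroids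
is finitely generated as a complete class. In fact, for every finite family of finite matroids there
is a strongly base-orderable matroid outside the complete class generated by the family. -/
theorem result : ¬ FinitelyGenerated SBO ∧ ¬ FinitelyGenerated BO ∧
    ∀ (k : ℕ) (β : Fin k → Type) (F : ∀ i, Matroid (β i)), (∀ i, (F i).E.Finite) →
      ∃ (α : Type) (M : Matroid α), SBO α M ∧ ¬ Generated F α M := by
  refine ⟨?_, ?_, exists_sbo_not_generated⟩
  · rintro ⟨k, β, F, hF, h⟩
    obtain ⟨α, M, h1, h2⟩ := exists_sbo_not_generated k β F hF
    exact h2 ((h α M).1 h1)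
  · rintro ⟨k, β, F, hF, h⟩
    obtain ⟨α, M, h1, h2⟩ := exists_sbo_not_generated k β F hF
    exact h2 ((h α M).1 (sbo_bo h1))

end Pool.Agent.Results.MP_9f00ad_co.NotFinitelyGenerated
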